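import Pool.Agent.H37.CNS.Stmts
import Pool.Agent.H65.CNY.DIV

/-!
# Board `cns` (helper37), row GDV: the refined divisor theorem
-/

set_option autoImplicit false

namespace Pool.CND

theorem gdv_thm (hYLO : S_YLO) (hNCL : S_NCL) (hINC : S_INC) (hCON : S_CON) (hNGD : S_NGD)
    (hRAM : S_RAM) : S_GDV := by
  intro p k G _ _ _ _ a r hp hk hr H
  have hall : ∀ c ∈ Cond k G, ∃ y : ℤ, ((p ^ a * r : ℕ) : ℚ) * c = y := by
    intro c hc
    let iF : Fintype G := Fintype.ofFinite G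
    obtain ⟨L, fL, aL, ρ, t, hcov, P, hPt, hP⟩ := hc
    rcases hYLO p k L G P ρ c hp hk hcov.inj hP with h0 | ⟨W, I, C, l, hW, hI, hC, hl1, -, hY⟩
    · subst h0
      exact ⟨0, by simp⟩
    have hN : Subgroup.normalClosure (W : Set G) = ⊤ :=
      hNCL p k L G ρ t P _ hp hk hcov hPt Subgroup.normalClosure_normal
        (by rw [← hW]; exact Subgroup.subset_normalClosure)
    obtain ⟨hA, hB⟩ := H W hY.cardW hN
    obtain ⟨n, hpn, hcI⟩ := hY.cardI
    have hcomm : YC I C r := dvv_comm p W I C n r hp hY.WI hY.nrmW hcI hpn hY.cen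
      (fun g hg hog => hB g C hog (hY.nrmW g hg) hY.CW hY.ne hY.ea hY.cen (hY.nrmC g hg)
        (hY.semi g hg))
    obtain ⟨s, y, hy⟩ := (hY.den r).1 hcomm
    rcases hCON k L G P ρ W I c hcov.inj hW hI hP with h0 | ⟨l', hl', hc⟩
    · subst h0
      exact ⟨0, by simp⟩
    obtain ⟨z, hzW, hz1, hbz⟩ := hl'.mem
    have hle : (l : ℤ) ≤ l' := by
      obtain ⟨⟨x, hxC⟩, hx0⟩ := Subgroup.ne_bot_iff_exists_ne_one.1 hY.ne
      have hx1 : x ≠ 1 := fun h => hx0 (Subtype.ext h)
      have hxr : x ∈ ram P ρ l := by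
        rw [← hC]
        exact hxC
      rcases ((hRAM k L G P ρ x l hl1).1 hxr).2 with h | h
      · exact absurd (hcov.inj (h.trans (map_one ρ).symm)) hx1
      · exact h.trans (hl'.le x (hY.CW hxC) hx1)
    have hzC : z ∈ C := by
      have hz' : z ∈ ram P ρ 1 := by
        rw [← hW]
        exact hzW
      have : z ∈ ram P ρ l := (hRAM k L G P ρ z l hl1).2 ⟨hz'.1, Or.inr (by
        show (l : ℤ) ≤ P.b (ρ z)
        have h1 : P.b (ρ z) = l' := hbz
        rw [h1]
        exact hle)⟩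
      rw [← hC] at this
      exact this
    have hzp : z ^ p = 1 := hY.ea.1 z hzC
    obtain ⟨Hs, d, hHW, hzH, hzc, hda, hcW⟩ := hA z hzW hz1 hzp (fun w hw => hY.cen w hw z hzC)
    obtain ⟨z1, hz1'⟩ := hINC p k L G P ρ W W Hs d l' z hp hk hcov.inj hW le_rfl hHW hY.cardW hzH
      hzc hbz hcW hl'
    have hWpos : 0 < Nat.card W := Nat.card_pos
    have hU : (n : ℚ) * c = U (fun g => P.b (ρ g)) W l' := by
      have hW0 : (Nat.card W : ℚ) ≠ 0 := by exact_mod_cast hWpos.ne'
      apply mul_left_cancel₀ hW0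
      rw [← hc, hcI]
      push_cast
      ring
    have hint : ((p ^ a * n : ℕ) : ℚ) * c = ((p ^ (a - d) * z1 : ℤ) : ℚ) := by
      have key : ((p ^ a * n : ℕ) : ℚ) * c = (p : ℚ) ^ a * U (fun g => P.b (ρ g)) W l' := by
        rw [← hU]
        push_cast
        ring
      rw [key]
      push_cast
      rw [← hz1']
      nth_rewrite 1 [show a = (a - d) + d by omega]
      rw [pow_add]
      ring
    exact dvv_int p n r a s c _ y hp hpn hint hy
  exact ⟨hall, hNGD k G (p ^ a * r) (Nat.mul_pos (pow_pos hp.pos a) hr) hall⟩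

end Pool.CND
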